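import Pool.Agent.Helper8.DP.ESheet

/-! # Row GAD -/

open scoped ContDiff
open Set Filter Topology
namespace Pool.Agent.Helper8.DP

theorem st_GAD : ST_GAD := by
  let β : ℝ → ℝ := fun s => Real.smoothTransition ((s ^ 2 - 16) / 48) *
    Real.smoothTransition ((128 ^ 2 - s ^ 2) / (128 ^ 2 - 64 ^ 2))
  let T : ℝ → ℝ := fun s => s * β s
  have hβ0 : ∀ s, 0 ≤ β s := fun s =>
    mul_nonneg (Real.smoothTransition.nonneg _) (Real.smoothTransition.nonneg _)
  have hβ1 : ∀ s, β s ≤ 1 := fun s =>
    mul_le_one₀ (Real.smoothTransition.le_one _) (Real.smoothTransition.nonneg _)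
      (Real.smoothTransition.le_one _)
  have hT : ContDiff ℝ ∞ T := by
    apply ContDiff.mul contDiff_id
    apply ContDiff.mul
    · exact Real.smoothTransition.contDiff.comp
        (((contDiff_id.pow 2).sub contDiff_const).div_const _)
    · exact Real.smoothTransition.contDiff.comp
        ((contDiff_const.sub (contDiff_id.pow 2)).div_const _)
  have hsq : ∀ s : ℝ, s ^ 2 = |s| ^ 2 := fun s => (sq_abs s).symm
  have hout : ∀ s : ℝ, 128 ≤ |s| → T s = 0 := by
    intro s hs
    have h1 : (128 ^ 2 - s ^ 2) / (128 ^ 2 - 64 ^ 2) ≤ (0 : ℝ) := by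
      apply div_nonpos_of_nonpos_of_nonneg
      · rw [hsq s]; nlinarith
      · norm_num
    simp only [T, β, Real.smoothTransition.zero_of_nonpos h1, mul_zero]
  have hle : ∀ s, |T s| ≤ |s| := by
    intro s
    simp only [T, abs_mul]
    rw [abs_of_nonneg (hβ0 s)]
    exact mul_le_of_le_one_right (abs_nonneg s) (hβ1 s)
  have hcs : HasCompactSupport T := HasCompactSupport.intro (K := Icc (-128 : ℝ) 128) isCompact_Icc
    (fun s hs => hout s (by
      by_contra hc
      push Not at hc
      exact hs ⟨by linarith [(abs_lt.1 hc).1], by linarith [(abs_lt.1 hc).2]⟩))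
  obtain ⟨C, hC⟩ := ContDiff.lipschitzWith_of_hasCompactSupport hcs hT (by simp)
  refine ⟨T, C + 1, hT, by positivity, ?_, hle, ?_, ?_, ?_⟩
  · intro s s'
    have h1 := hC.dist_le_mul s s'
    rw [Real.dist_eq, Real.dist_eq] at h1
    have : 0 ≤ |s - s'| := abs_nonneg _
    linarith
  · intro s
    rcases le_total |s| 128 with h | h
    · exact (hle s).trans h
    · rw [hout s h]; norm_num
  · intro s hs
    have h1 : (s ^ 2 - 16) / 48 ≤ (0 : ℝ) := by
      apply div_nonpos_of_nonpos_of_nonneg
      · rw [hsq s]; nlinarith [abs_nonneg s]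
      · norm_num
    simp only [T, β, Real.smoothTransition.zero_of_nonpos h1, zero_mul, mul_zero]
  · intro s h8 h64
    have h1 : (1 : ℝ) ≤ (s ^ 2 - 16) / 48 := by
      rw [le_div_iff₀ (by norm_num), hsq s]; nlinarith
    have h2 : (1 : ℝ) ≤ (128 ^ 2 - s ^ 2) / (128 ^ 2 - 64 ^ 2) := by
      rw [le_div_iff₀ (by norm_num), hsq s]; nlinarith [abs_nonneg s]
    simp only [T, β, Real.smoothTransition.one_of_one_le h1, Real.smoothTransition.one_of_one_le h2,
      mul_one]

end Pool.Agent.Helper8.DP
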